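import Pool.Agent.Q16.Basis.Defs

set_option autoImplicit false

namespace Pool.Agent.Q16.Basis

universe u₁ u₂ u₃ u₄ u₅

section Compl

variable {RA : Type u₁} {RB : Type u₂} {ι : Type u₃} {ar : ι → ℕ}
  (E : Set (Ident RA RB ar))

/-- derivable equality on sort-1 terms -/
@[instance_reducible]
def s1 : Setoid (T1 RA) where
  r s t := Derives E (.one s t)
  iseqv := ⟨fun s => .refl₁ s, fun h => .symm₁ h, fun h h' => .trans₁ h h'⟩

/-- derivable equality on sort-2 terms -/
@[instance_reducible]
def s2 : Setoid (T2 RA RB ar) where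
  r s t := Derives E (.two s t)
  iseqv := ⟨fun s => .refl₂ s, fun h => .symm₂ h, fun h h' => .trans₂ h h'⟩

/-- the free model -/
noncomputable def QAlg : Alg RA RB ar (Quotient (s1 E)) (Quotient (s2 E)) where
  zero₁ := Quotient.mk _ .zero
  neg₁ := Quotient.map .neg (fun _ _ h => Derives.neg₁ h)
  add₁ := Quotient.map₂ .add (fun _ _ h _ _ h' => Derives.add₁ h h')
  smul₁ r := Quotient.map (.smul r) (fun _ _ h => Derives.smul₁ r h)
  zero₂ := Quotient.mk _ .zero
  neg₂ := Quotient.map .neg (fun _ _ h => Derives.neg₂ h)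
  add₂ := Quotient.map₂ .add (fun _ _ h _ _ h' => Derives.add₂ h h')
  smul₂ r := Quotient.map (.smul r) (fun _ _ h => Derives.smul₂ r h)
  app i v := Quotient.mk _ (.app i (fun a => (v a).out))

theorem QAlg_eval₁ (σ : ℕ → T1 RA) (t : T1 RA) :
    (QAlg E).eval₁ (fun n => Quotient.mk (s1 E) (σ n)) t = Quotient.mk (s1 E) (t.subst σ) := by
  induction t with
  | var n => rfl
  | zero => rfl
  | neg t ih => simp only [Alg.eval₁, ih]; rfl
  | add s t ih1 ih2 => simp only [Alg.eval₁, ih1, ih2]; rfl
  | smul r t ih => simp only [Alg.eval₁, ih]; rfl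

theorem QAlg_eval₂ (σ : ℕ → T1 RA) (τ : ℕ → T2 RA RB ar) (t : T2 RA RB ar) :
    (QAlg E).eval₂ (fun n => Quotient.mk (s1 E) (σ n)) (fun n => Quotient.mk (s2 E) (τ n)) t =
      Quotient.mk (s2 E) (t.subst σ τ) := by
  induction t with
  | var n => rfl
  | zero => rfl
  | neg t ih => simp only [Alg.eval₂, ih]; rfl
  | add s t ih1 ih2 => simp only [Alg.eval₂, ih1, ih2]; rfl
  | smul r t ih => simp only [Alg.eval₂, ih]; rfl
  | app i s =>
    simp only [Alg.eval₂, QAlg_eval₁]
    apply Quotient.sound
    refine Derives.app i (fun a => ?_)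
    exact Quotient.exact (s := s1 E)
      (Quotient.out_eq (Quotient.mk (s1 E) ((s a).subst σ)))

theorem T1.subst_var (t : T1 RA) : t.subst (fun n => .var n) = t := by
  induction t with
  | var n => rfl
  | zero => rfl
  | neg t ih => simp only [T1.subst, ih]
  | add s t ih1 ih2 => simp only [T1.subst, ih1, ih2]
  | smul r t ih => simp only [T1.subst, ih]

theorem T2.subst_var (t : T2 RA RB ar) : t.subst (fun n => .var n) (fun n => .var n) = t := by
  induction t with
  | var n => rfl
  | zero => rfl
  | neg t ih => simp only [T2.subst, ih]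
  | add s t ih1 ih2 => simp only [T2.subst, ih1, ih2]
  | smul r t ih => simp only [T2.subst, ih]
  | app i s => simp only [T2.subst, T1.subst_var]

theorem QAlg_holds {e : Ident RA RB ar} (he : e ∈ E) : (QAlg E).Holds e := by
  have key : ∀ (x : ℕ → Quotient (s1 E)), x = fun n => Quotient.mk (s1 E) ((x n).out) := fun x =>
    funext fun n => (Quotient.out_eq (x n)).symm
  have key2 : ∀ (x : ℕ → Quotient (s2 E)), x = fun n => Quotient.mk (s2 E) ((x n).out) := fun x =>
    funext fun n => (Quotient.out_eq (x n)).symm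
  cases e with
  | one s t =>
    intro x
    rw [key x, QAlg_eval₁, QAlg_eval₁]
    exact Quotient.sound (Derives.subst (fun n => (x n).out) (fun n => .var n) (Derives.ax he))
  | two s t =>
    intro x y
    rw [key x, key2 y, QAlg_eval₂, QAlg_eval₂]
    exact Quotient.sound
      (Derives.subst (fun n => (x n).out) (fun n => (y n).out) (Derives.ax he))

theorem derives_of_QAlg_holds {e : Ident RA RB ar} (he : (QAlg E).Holds e) : Derives E e := by
  cases e with
  | one s t =>
    have h := he (fun n => Quotient.mk (s1 E) (.var n))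
    rw [QAlg_eval₁, QAlg_eval₁, T1.subst_var, T1.subst_var] at h
    exact Quotient.exact h
  | two s t =>
    have h := he (fun n => Quotient.mk (s1 E) (.var n)) (fun n => Quotient.mk (s2 E) (.var n))
    rw [QAlg_eval₂, QAlg_eval₂, T2.subst_var, T2.subst_var] at h
    exact Quotient.exact h

end Compl

end Pool.Agent.Q16.Basis
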