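import Mathlib

set_option autoImplicit false

namespace Pool.Agent.Q16.Basis

universe u₁ u₂ u₃ u₄ u₅

/-- Terms of sort 1: module terms over `RA` in the sort-1 variables `x₀, x₁, …`. -/
inductive T1 (RA : Type u₁) : Type u₁
  | var : ℕ → T1 RA
  | zero : T1 RA
  | neg : T1 RA → T1 RA
  | add : T1 RA → T1 RA → T1 RA
  | smul : RA → T1 RA → T1 RA

/-- Terms of sort 2 over the sort-2 variables `y₀, y₁, …`; the function symbol `i` takes `ar i`
arguments of sort 1 and yields a term of sort 2. -/
inductive T2 (RA : Type u₁) (RB : Type u₂) {ι : Type u₃} (ar : ι → ℕ) : Type (max u₁ u₂ u₃)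
  | var : ℕ → T2 RA RB ar
  | zero : T2 RA RB ar
  | neg : T2 RA RB ar → T2 RA RB ar
  | add : T2 RA RB ar → T2 RA RB ar → T2 RA RB ar
  | smul : RB → T2 RA RB ar → T2 RA RB ar
  | app : (i : ι) → (Fin (ar i) → T1 RA) → T2 RA RB ar

/-- Two-sorted algebras of the signature: carriers `U` (sort 1) and `V` (sort 2). -/
structure Alg (RA : Type u₁) (RB : Type u₂) {ι : Type u₃} (ar : ι → ℕ) (U : Type u₄)
    (V : Type u₅) where
  zero₁ : U
  neg₁ : U → U
  add₁ : U → U → U
  smul₁ : RA → U → U
  zero₂ : V
  neg₂ : V → V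
  add₂ : V → V → V
  smul₂ : RB → V → V
  app : (i : ι) → (Fin (ar i) → U) → V

section

variable {RA : Type u₁} {RB : Type u₂} {ι : Type u₃} {ar : ι → ℕ} {U : Type u₄} {V : Type u₅}

/-- Value of a sort-1 term under the assignment `x` of the sort-1 variables. -/
def Alg.eval₁ (N : Alg RA RB ar U V) (x : ℕ → U) : T1 RA → U
  | .var n => x n
  | .zero => N.zero₁
  | .neg t => N.neg₁ (N.eval₁ x t)
  | .add s t => N.add₁ (N.eval₁ x s) (N.eval₁ x t)
  | .smul r t => N.smul₁ r (N.eval₁ x t)

/-- Value of a sort-2 term under the assignments `x`, `y` of the variables of sorts 1 and 2. -/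
def Alg.eval₂ (N : Alg RA RB ar U V) (x : ℕ → U) (y : ℕ → V) : T2 RA RB ar → V
  | .var n => y n
  | .zero => N.zero₂
  | .neg t => N.neg₂ (N.eval₂ x y t)
  | .add s t => N.add₂ (N.eval₂ x y s) (N.eval₂ x y t)
  | .smul r t => N.smul₂ r (N.eval₂ x y t)
  | .app i s => N.app i (fun a => N.eval₁ x (s a))

/-- Substitution of sort-1 terms for the sort-1 variables in a sort-1 term. -/
def T1.subst (σ : ℕ → T1 RA) : T1 RA → T1 RA
  | .var n => σ n
  | .zero => .zero
  | .neg t => .neg (t.subst σ)
  | .add s t => .add (s.subst σ) (t.subst σ)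
  | .smul r t => .smul r (t.subst σ)

/-- Substitution of terms of the right sorts for the variables of both sorts. -/
def T2.subst (σ : ℕ → T1 RA) (τ : ℕ → T2 RA RB ar) : T2 RA RB ar → T2 RA RB ar
  | .var n => τ n
  | .zero => .zero
  | .neg t => .neg (t.subst σ τ)
  | .add s t => .add (s.subst σ τ) (t.subst σ τ)
  | .smul r t => .smul r (t.subst σ τ)
  | .app i s => .app i (fun a => (s a).subst σ)

end

/-- Identities: pairs of terms of the same sort. -/
inductive Ident (RA : Type u₁) (RB : Type u₂) {ι : Type u₃} (ar : ι → ℕ) : Type (max u₁ u₂ u₃)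
  | one : T1 RA → T1 RA → Ident RA RB ar
  | two : T2 RA RB ar → T2 RA RB ar → Ident RA RB ar

section

variable {RA : Type u₁} {RB : Type u₂} {ι : Type u₃} {ar : ι → ℕ} {U : Type u₄} {V : Type u₅}

/-- Substitution in an identity. -/
def Ident.subst (σ : ℕ → T1 RA) (τ : ℕ → T2 RA RB ar) : Ident RA RB ar → Ident RA RB ar
  | .one s t => .one (s.subst σ) (t.subst σ)
  | .two s t => .two (s.subst σ τ) (t.subst σ τ)

/-- An identity is true in the algebra `N` if both sides agree under all assignments. -/
def Alg.Holds (N : Alg RA RB ar U V) : Ident RA RB ar → Prop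
  | .one s t => ∀ x : ℕ → U, N.eval₁ x s = N.eval₁ x t
  | .two s t => ∀ (x : ℕ → U) (y : ℕ → V), N.eval₂ x y s = N.eval₂ x y t

/-- Derivability of identities from the set `E` in two-sorted equational logic. -/
inductive Derives (E : Set (Ident RA RB ar)) : Ident RA RB ar → Prop
  | ax {e : Ident RA RB ar} : e ∈ E → Derives E e
  | subst {e : Ident RA RB ar} (σ : ℕ → T1 RA) (τ : ℕ → T2 RA RB ar) :
      Derives E e → Derives E (e.subst σ τ)
  | refl₁ (s : T1 RA) : Derives E (.one s s)
  | symm₁ {s t : T1 RA} : Derives E (.one s t) → Derives E (.one t s)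
  | trans₁ {s t u : T1 RA} : Derives E (.one s t) → Derives E (.one t u) → Derives E (.one s u)
  | neg₁ {s t : T1 RA} : Derives E (.one s t) → Derives E (.one (.neg s) (.neg t))
  | add₁ {s t s' t' : T1 RA} : Derives E (.one s t) → Derives E (.one s' t') →
      Derives E (.one (.add s s') (.add t t'))
  | smul₁ (r : RA) {s t : T1 RA} : Derives E (.one s t) →
      Derives E (.one (.smul r s) (.smul r t))
  | refl₂ (s : T2 RA RB ar) : Derives E (.two s s)
  | symm₂ {s t : T2 RA RB ar} : Derives E (.two s t) → Derives E (.two t s)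
  | trans₂ {s t u : T2 RA RB ar} : Derives E (.two s t) → Derives E (.two t u) →
      Derives E (.two s u)
  | neg₂ {s t : T2 RA RB ar} : Derives E (.two s t) → Derives E (.two (.neg s) (.neg t))
  | add₂ {s t s' t' : T2 RA RB ar} : Derives E (.two s t) → Derives E (.two s' t') →
      Derives E (.two (.add s s') (.add t t'))
  | smul₂ (r : RB) {s t : T2 RA RB ar} : Derives E (.two s t) →
      Derives E (.two (.smul r s) (.smul r t))
  | app (i : ι) {s t : Fin (ar i) → T1 RA} : (∀ a, Derives E (.one (s a) (t a))) →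
      Derives E (.two (.app i s) (.app i t))

/-- `N` has a finite equational basis: some finite set of identities true in `N` derives every
identity true in `N`. -/
def Alg.HasFiniteBasis (N : Alg RA RB ar U V) : Prop :=
  ∃ E : Set (Ident RA RB ar), E.Finite ∧ (∀ e ∈ E, N.Holds e) ∧ ∀ e, N.Holds e → Derives E e

end

/-- The two-sorted algebra `𝕄(A, B, (f_i))`: the module operations of `A` on sort 1, those of `B`
on sort 2, and each `f i : A ^ (ar i) → B` as an operation from sort 1 to sort 2. -/
def modAlg (RA : Type u₁) (RB : Type u₂) [Ring RA] [Ring RB] {ι : Type u₃} (ar : ι → ℕ)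
    {A : Type u₄} {B : Type u₅} [AddCommGroup A] [Module RA A] [AddCommGroup B] [Module RB B]
    (f : (i : ι) → (Fin (ar i) → A) → B) : Alg RA RB ar A B where
  zero₁ := 0
  neg₁ a := -a
  add₁ a b := a + b
  smul₁ r a := r • a
  zero₂ := 0
  neg₂ a := -a
  add₂ a b := a + b
  smul₂ r a := r • a
  app := f

/-- The two-sorted algebra `𝕄(A, B, F)` of a set `F` of finitary operations from `A` to `B`; the
function symbols are the members of `F`, each with its own arity. -/
def setAlg (RA : Type u₁) (RB : Type u₂) [Ring RA] [Ring RB] {A : Type u₄} {B : Type u₅}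
    [AddCommGroup A] [Module RA A] [AddCommGroup B] [Module RB B]
    (F : Set (Σ n : ℕ, (Fin n → A) → B)) :
    Alg RA RB (fun g : F => g.1.1) A B :=
  modAlg RA RB (fun g : F => g.1.1) (fun g => g.1.2)

end Pool.Agent.Q16.Basis
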