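import Pool.Agent.Q16.Basis.Defs
import Pool.Agent.Q16.Noeth.Acc

set_option autoImplicit false

namespace Pool.Agent.Q16.Basis

universe u₁ u₂ u₃ u₄ u₅

section Bd

variable {RA : Type u₁} {RB : Type u₂} {ι : Type u₃} {ar : ι → ℕ} {U : Type u₄} {V : Type u₅}

/-- bound for the sort-1 variables -/
def T1.bd : T1 RA → ℕ
  | .var n => n + 1
  | .zero => 0
  | .neg t => t.bd
  | .add s t => max s.bd t.bd
  | .smul _ t => t.bd

/-- bound for the sort-1 variables -/
def T2.bd : T2 RA RB ar → ℕ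
  | .var _ => 0
  | .zero => 0
  | .neg t => t.bd
  | .add s t => max s.bd t.bd
  | .smul _ t => t.bd
  | .app _ s => Finset.univ.sup (fun a => (s a).bd)

theorem eval₁_congr (N : Alg RA RB ar U V) {x x' : ℕ → U} (t : T1 RA)
    (h : ∀ n < t.bd, x n = x' n) : N.eval₁ x t = N.eval₁ x' t := by
  induction t with
  | var n => exact h n (Nat.lt_succ_self n)
  | zero => rfl
  | neg t ih => simp only [Alg.eval₁]; rw [ih h]
  | add s t ih1 ih2 =>
    simp only [Alg.eval₁]
    rw [ih1 (fun n hn => h n (lt_of_lt_of_le hn (le_max_left _ _))),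
      ih2 (fun n hn => h n (lt_of_lt_of_le hn (le_max_right _ _)))]
  | smul r t ih => simp only [Alg.eval₁]; rw [ih h]

theorem eval₂_congr (N : Alg RA RB ar U V) {x x' : ℕ → U} (y : ℕ → V) (t : T2 RA RB ar)
    (h : ∀ n < t.bd, x n = x' n) : N.eval₂ x y t = N.eval₂ x' y t := by
  induction t with
  | var n => rfl
  | zero => rfl
  | neg t ih => simp only [Alg.eval₂]; rw [ih h]
  | add s t ih1 ih2 =>
    simp only [Alg.eval₂]
    rw [ih1 (fun n hn => h n (lt_of_lt_of_le hn (le_max_left _ _))),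
      ih2 (fun n hn => h n (lt_of_lt_of_le hn (le_max_right _ _)))]
  | smul r t ih => simp only [Alg.eval₂]; rw [ih h]
  | app i s =>
    simp only [Alg.eval₂]
    congr 1
    funext a
    apply eval₁_congr
    intro n hn
    exact h n (lt_of_lt_of_le hn (Finset.le_sup (f := fun a => (s a).bd) (Finset.mem_univ a)))

end Bd

section Nf

variable {RA : Type u₁} {RB : Type u₂} [Ring RA] [Ring RB] {ι : Type u₃} {ar : ι → ℕ}

/-- coefficients of a sort-1 term -/
def nf₁ (k : ℕ) : T1 RA → (Fin k → RA)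
  | .var n => if h : n < k then Pi.single ⟨n, h⟩ 1 else 0
  | .zero => 0
  | .neg t => - nf₁ k t
  | .add s t => nf₁ k s + nf₁ k t
  | .smul r t => r • nf₁ k t

variable (RA ar) in
/-- application terms with module terms in `k` variables as arguments -/
abbrev P (k : ℕ) : Type (max u₁ u₃) := Σ i : ι, (Fin (ar i) → Fin k → RA)

/-- coefficients of the application terms in a sort-2 term -/
noncomputable def nf₂ (k : ℕ) : T2 RA RB ar → (P RA ar k →₀ RB)
  | .var _ => 0
  | .zero => 0
  | .neg t => - nf₂ k t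
  | .add s t => nf₂ k s + nf₂ k t
  | .smul r t => r • nf₂ k t
  | .app i s => Finsupp.single ⟨i, fun a => nf₁ k (s a)⟩ 1

/-- coefficients of the sort-2 variables in a sort-2 term -/
noncomputable def nfy : T2 RA RB ar → (ℕ →₀ RB)
  | .var n => Finsupp.single n 1
  | .zero => 0
  | .neg t => - nfy t
  | .add s t => nfy s + nfy t
  | .smul r t => r • nfy t
  | .app _ _ => 0

section Eval

variable {A : Type u₄} {B : Type u₅} [AddCommGroup A] [Module RA A] [AddCommGroup B] [Module RB B]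
  (f : (i : ι) → (Fin (ar i) → A) → B)

theorem eval_nf₁ (x : ℕ → A) (k : ℕ) (hx : ∀ n, k ≤ n → x n = 0) (t : T1 RA) :
    (modAlg RA RB ar f).eval₁ x t = ∑ j : Fin k, nf₁ k t j • x j := by
  induction t with
  | var n =>
    change x n = _
    by_cases h : n < k
    · simp [nf₁, h, Pi.single_apply]
    · simp [nf₁, h, hx n (not_lt.1 h)]
  | zero => simp [nf₁, Alg.eval₁, modAlg]
  | neg t ih =>
    change - (modAlg RA RB ar f).eval₁ x t = _
    rw [ih]; simp [nf₁, neg_smul]
  | add s t ih1 ih2 =>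
    change (modAlg RA RB ar f).eval₁ x s + (modAlg RA RB ar f).eval₁ x t = _
    rw [ih1, ih2]; simp [nf₁, add_smul, Finset.sum_add_distrib]
  | smul r t ih =>
    change r • (modAlg RA RB ar f).eval₁ x t = _
    rw [ih]; simp [nf₁, mul_smul, Finset.smul_sum]

/-- value of an application term -/
def val {k : ℕ} (x : Fin k → A) : P RA ar k → B :=
  fun p => f p.1 (fun a => ∑ j, p.2 a j • x j)

theorem eval_nf₂ (x : ℕ → A) (y : ℕ → B) (k : ℕ) (hx : ∀ n, k ≤ n → x n = 0)
    (t : T2 RA RB ar) :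
    (modAlg RA RB ar f).eval₂ x y t = Finsupp.linearCombination RB y (nfy t) +
      Finsupp.linearCombination RB (val f (fun j : Fin k => x j)) (nf₂ k t) := by
  induction t with
  | var n => simp [Alg.eval₂, nfy, nf₂]
  | zero => simp [nfy, nf₂, Alg.eval₂, modAlg]
  | neg t ih =>
    change - (modAlg RA RB ar f).eval₂ x y t = _
    rw [ih]; simp only [nfy, nf₂, map_neg]; abel
  | add s t ih1 ih2 =>
    change (modAlg RA RB ar f).eval₂ x y s + (modAlg RA RB ar f).eval₂ x y t = _
    rw [ih1, ih2]; simp only [nfy, nf₂, map_add]; abel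
  | smul r t ih =>
    change r • (modAlg RA RB ar f).eval₂ x y t = _
    rw [ih]; simp only [nfy, nf₂, map_smul, smul_add]
  | app i s =>
    change f i (fun a => (modAlg RA RB ar f).eval₁ x (s a)) = _
    simp only [nfy, nf₂, map_zero, zero_add, Finsupp.linearCombination_single, one_smul, val,
      eval_nf₁ f x k hx]

/-- relations between application terms -/
noncomputable def Rel (k : ℕ) : Submodule RB (P RA ar k →₀ RB) :=
  ⨅ x : Fin k → A, LinearMap.ker (Finsupp.linearCombination RB (val f x))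

theorem mem_Rel {k : ℕ} {c : P RA ar k →₀ RB} :
    c ∈ Rel f k ↔ ∀ x : Fin k → A, Finsupp.linearCombination RB (val f x) c = 0 := by
  simp [Rel, Submodule.mem_iInf]

end Eval

/-- substitution of module terms -/
def act {k l : ℕ} (S : Fin k → Fin l → RA) : P RA ar k → P RA ar l :=
  fun p => ⟨p.1, fun a j => ∑ m, p.2 a m * S m j⟩

/-- families closed under substitutions -/
def MClosed (N : ∀ k, Submodule RB (P RA ar k →₀ RB)) : Prop :=
  ∀ k l (S : Fin k → Fin l → RA), ∀ v ∈ N k, v.mapDomain (act S) ∈ N l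

theorem Rel_closed {A : Type u₄} {B : Type u₅} [AddCommGroup A] [Module RA A] [AddCommGroup B]
    [Module RB B] (f : (i : ι) → (Fin (ar i) → A) → B) :
    MClosed (Rel (RA := RA) (RB := RB) f) := by
  intro k l S v hv
  rw [mem_Rel] at hv ⊢
  intro x
  rw [Finsupp.linearCombination_mapDomain]
  have h : (val f x ∘ act S : P RA ar k → B) = val f (fun m => ∑ j, S m j • x j) := by
    funext p
    simp only [Function.comp, val, act]
    congr 1
    funext a
    simp only [Finset.sum_smul, Finset.smul_sum, mul_smul]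
    rw [Finset.sum_comm]
  rw [h]
  exact hv _

/-- generated family -/
def gen (G : Set (Σ k, P RA ar k →₀ RB)) (k : ℕ) : Submodule RB (P RA ar k →₀ RB) where
  carrier := {c | ∀ N : ∀ k, Submodule RB (P RA ar k →₀ RB), MClosed N →
    (∀ g ∈ G, g.2 ∈ N g.1) → c ∈ N k}
  zero_mem' := fun N _ _ => Submodule.zero_mem _
  add_mem' := fun h h' N hN hG => Submodule.add_mem _ (h N hN hG) (h' N hN hG)
  smul_mem' := fun c _ h _ hN hG => Submodule.smul_mem _ c (h _ hN hG)

theorem gen_closed (G : Set (Σ k, P RA ar k →₀ RB)) : MClosed (gen G) :=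
  fun k l S v hv N hN hG => hN k l S v (hv N hN hG)

theorem subset_gen (G : Set (Σ k, P RA ar k →₀ RB)) : ∀ g ∈ G, g.2 ∈ gen G g.1 :=
  fun g hg _ _ hG => hG g hg

theorem gen_mono {G G' : Set (Σ k, P RA ar k →₀ RB)} (h : G ⊆ G') : gen G ≤ gen G' :=
  fun _ _ hc N hN hG => hc N hN (fun g hg => hG g (h hg))

theorem act_of_map {k l : ℕ} (φ : Fin l → Fin k) (p : P RA ar k) :
    act (fun m j => if m = φ j then (1 : RA) else 0) p = ⟨p.1, fun a j => p.2 a (φ j)⟩ := by
  simp [act]

theorem fg [Finite RA] [Finite ι] [IsNoetherianRing RB]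
    (N : ∀ k, Submodule RB (P RA ar k →₀ RB)) :
    ∃ G : Set (Σ k, P RA ar k →₀ RB), G.Finite ∧ (∀ g ∈ G, g.2 ∈ N g.1) ∧ N ≤ gen G := by
  classical
  by_contra hcon
  push Not at hcon
  have hstep : ∀ G : {G : Finset (Σ k, P RA ar k →₀ RB) // ∀ g ∈ G, g.2 ∈ N g.1},
      ∃ x : (Σ k, P RA ar k →₀ RB), x.2 ∈ N x.1 ∧ x.2 ∉ gen (G.1 : Set _) x.1 := by
    intro G
    have h := hcon (G.1 : Set _) G.1.finite_toSet G.2
    rw [Pi.le_def] at h
    push Not at h
    obtain ⟨k, hk⟩ := h
    obtain ⟨c, hc, hc'⟩ := SetLike.not_le_iff_exists.1 hk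
    exact ⟨⟨k, c⟩, hc, hc'⟩
  choose x hx1 hx2 using hstep
  let st : {G : Finset (Σ k, P RA ar k →₀ RB) // ∀ g ∈ G, g.2 ∈ N g.1} →
      {G : Finset (Σ k, P RA ar k →₀ RB) // ∀ g ∈ G, g.2 ∈ N g.1} := fun G =>
    ⟨insert (x G) G.1, by
      intro g hg
      rcases Finset.mem_insert.1 hg with rfl | hg
      · exact hx1 G
      · exact G.2 g hg⟩
  let Gs : ℕ → {G : Finset (Σ k, P RA ar k →₀ RB) // ∀ g ∈ G, g.2 ∈ N g.1} := fun n =>
    Nat.rec ⟨∅, by simp⟩ (fun _ G => st G) n
  have hGs : ∀ n, Gs (n + 1) = st (Gs n) := fun n => rfl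
  let a : ℕ → ∀ k, Submodule RB (P RA ar k →₀ RB) := fun n => gen ((Gs n).1 : Set _)
  have hmono : Monotone a := by
    apply monotone_nat_of_le_succ
    intro n
    apply gen_mono
    rw [hGs]
    intro g hg
    simp only [st, Finset.coe_insert]
    exact Set.mem_insert_of_mem _ hg
  have hfin : Finite (Σ i : ι, (Fin (ar i) → RA)) := inferInstance
  obtain ⟨n, hn⟩ := Noeth.acc_words (J := ℕ) (fun k => k) (ι := ι)
    (α := Σ i : ι, (Fin (ar i) → RA)) (P RA ar)
    (fun k p => (p.1, fun j => ⟨p.1, fun a => p.2 a j⟩))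
    (by
      rintro k ⟨i, T⟩ ⟨i', T'⟩ h
      simp only [Prod.mk.injEq] at h
      obtain ⟨rfl, h⟩ := h
      congr 1
      funext b j
      have h1 := congrFun h j
      simp only [Sigma.mk.injEq, heq_eq_eq, true_and] at h1
      exact congrFun h1 b)
    (fun k l φ p => ⟨p.1, fun a j => p.2 a (φ j)⟩)
    (by
      intro k l φ _ p
      rfl)
    a hmono (by
      intro n k l φ _ v hv
      have h := gen_closed _ k l (fun m j => if m = φ j then (1 : RA) else 0) v hv
      have h2 : (act (fun m j => if m = φ j then (1 : RA) else 0) : P RA ar k → P RA ar l) =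
          fun p => ⟨p.1, fun a j => p.2 a (φ j)⟩ := funext (act_of_map φ)
      rw [h2] at h
      exact h)
  have h1 := hn (n + 1) (Nat.le_succ n)
  have h2 : (x (Gs n)).2 ∈ a (n + 1) (x (Gs n)).1 := by
    apply subset_gen
    rw [hGs]
    simp [st]
  rw [h1] at h2
  exact hx2 _ h2

end Nf

end Pool.Agent.Q16.Basis
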