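import Pool.Agent.Q16.Basis.Compl
import Pool.Agent.Q16.Basis.Nf

set_option autoImplicit false

namespace Pool.Agent.Q16.Basis

universe u₁ u₂ u₃ u₄ u₅ u₆ u₇

section Ax

variable (RA : Type u₁) (RB : Type u₂) [Ring RA] [Ring RB] {ι : Type u₃} (ar : ι → ℕ)

/-- module axioms, first sort -/
def modAx₁ : Set (Ident RA RB ar) :=
  {.one (.add (.add (.var 0) (.var 1)) (.var 2)) (.add (.var 0) (.add (.var 1) (.var 2))),
   .one (.add (.var 0) (.var 1)) (.add (.var 1) (.var 0)),
   .one (.add .zero (.var 0)) (.var 0),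
   .one (.add (.neg (.var 0)) (.var 0)) .zero,
   .one (.smul 1 (.var 0)) (.var 0)} ∪
  (Set.range (fun r : RA => .one (.smul r (.add (.var 0) (.var 1)))
    (.add (.smul r (.var 0)) (.smul r (.var 1)))) ∪
  (Set.range (fun p : RA × RA => .one (.smul (p.1 + p.2) (.var 0))
    (.add (.smul p.1 (.var 0)) (.smul p.2 (.var 0)))) ∪
  Set.range (fun p : RA × RA => .one (.smul (p.1 * p.2) (.var 0))
    (.smul p.1 (.smul p.2 (.var 0))))))

/-- module axioms, second sort -/
def modAx₂ : Set (Ident RA RB ar) :=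
  {.two (.add (.add (.var 0) (.var 1)) (.var 2)) (.add (.var 0) (.add (.var 1) (.var 2))),
   .two (.add (.var 0) (.var 1)) (.add (.var 1) (.var 0)),
   .two (.add .zero (.var 0)) (.var 0),
   .two (.add (.neg (.var 0)) (.var 0)) .zero,
   .two (.smul 1 (.var 0)) (.var 0)} ∪
  (Set.range (fun r : RB => .two (.smul r (.add (.var 0) (.var 1)))
    (.add (.smul r (.var 0)) (.smul r (.var 1)))) ∪
  (Set.range (fun p : RB × RB => .two (.smul (p.1 + p.2) (.var 0))
    (.add (.smul p.1 (.var 0)) (.smul p.2 (.var 0)))) ∪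
  Set.range (fun p : RB × RB => .two (.smul (p.1 * p.2) (.var 0))
    (.smul p.1 (.smul p.2 (.var 0))))))

omit [Ring RB] in
theorem modAx₁_finite [Finite RA] : (modAx₁ RA RB ar).Finite := by
  unfold modAx₁
  refine Set.Finite.union (by simp) (Set.Finite.union (Set.finite_range _)
    (Set.Finite.union (Set.finite_range _) (Set.finite_range _)))

omit [Ring RA] in
theorem modAx₂_finite [Finite RB] : (modAx₂ RA RB ar).Finite := by
  unfold modAx₂
  refine Set.Finite.union (by simp) (Set.Finite.union (Set.finite_range _)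
    (Set.Finite.union (Set.finite_range _) (Set.finite_range _)))

variable {RA RB ar}
variable {U : Type u₄} {V : Type u₅}

/-- auxiliary assignment -/
def asg {W : Type*} (a b c : W) : ℕ → W
  | 0 => a
  | 1 => b
  | _ => c

/-- the group structure of sort 1 -/
@[instance_reducible]
def grp₁ (N : Alg RA RB ar U V) (h : ∀ e ∈ modAx₁ RA RB ar, N.Holds e) : AddCommGroup U where
  add := N.add₁
  neg := N.neg₁
  zero := N.zero₁
  nsmul := @nsmulRec U ⟨N.zero₁⟩ ⟨N.add₁⟩
  zsmul := @zsmulRec U ⟨N.zero₁⟩ ⟨N.add₁⟩ ⟨N.neg₁⟩ (@nsmulRec U ⟨N.zero₁⟩ ⟨N.add₁⟩)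
  add_assoc a b c := h (.one (.add (.add (.var 0) (.var 1)) (.var 2))
    (.add (.var 0) (.add (.var 1) (.var 2)))) (by simp [modAx₁]) (asg a b c)
  add_comm a b := h (.one (.add (.var 0) (.var 1)) (.add (.var 1) (.var 0)))
    (by simp [modAx₁]) (asg a b b)
  zero_add a := h (.one (.add .zero (.var 0)) (.var 0)) (by simp [modAx₁]) (asg a a a)
  add_zero a := by
    have h1 := h (.one (.add (.var 0) (.var 1)) (.add (.var 1) (.var 0)))
      (by simp [modAx₁]) (asg a N.zero₁ a)
    have h2 := h (.one (.add .zero (.var 0)) (.var 0)) (by simp [modAx₁]) (asg a a a)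
    exact Eq.trans h1 h2
  neg_add_cancel a := h (.one (.add (.neg (.var 0)) (.var 0)) .zero)
    (by simp [modAx₁]) (asg a a a)

/-- the module structure of sort 1 -/
@[instance_reducible]
def mod₁ (N : Alg RA RB ar U V) (h : ∀ e ∈ modAx₁ RA RB ar, N.Holds e) :
    @Module RA U _ (grp₁ N h).toAddCommMonoid :=
  let _ := grp₁ N h
  let _ : SMul RA U := ⟨N.smul₁⟩
  Module.ofMinimalAxioms
    (fun r a b => h (.one (.smul r (.add (.var 0) (.var 1)))
      (.add (.smul r (.var 0)) (.smul r (.var 1)))) (by simp [modAx₁]) (asg a b b))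
    (fun r s a => h (.one (.smul (r + s) (.var 0))
      (.add (.smul r (.var 0)) (.smul s (.var 0)))) (by simp [modAx₁]) (asg a a a))
    (fun r s a => h (.one (.smul (r * s) (.var 0))
      (.smul r (.smul s (.var 0)))) (by simp [modAx₁]) (asg a a a))
    (fun a => h (.one (.smul 1 (.var 0)) (.var 0)) (by simp [modAx₁]) (asg a a a))

/-- the group structure of sort 2 -/
@[instance_reducible]
def grp₂ (N : Alg RA RB ar U V) (h : ∀ e ∈ modAx₂ RA RB ar, N.Holds e) : AddCommGroup V where
  add := N.add₂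
  neg := N.neg₂
  zero := N.zero₂
  nsmul := @nsmulRec V ⟨N.zero₂⟩ ⟨N.add₂⟩
  zsmul := @zsmulRec V ⟨N.zero₂⟩ ⟨N.add₂⟩ ⟨N.neg₂⟩ (@nsmulRec V ⟨N.zero₂⟩ ⟨N.add₂⟩)
  add_assoc a b c := h (.two (.add (.add (.var 0) (.var 1)) (.var 2))
    (.add (.var 0) (.add (.var 1) (.var 2)))) (by simp [modAx₂]) (fun _ => N.zero₁) (asg a b c)
  add_comm a b := h (.two (.add (.var 0) (.var 1)) (.add (.var 1) (.var 0)))
    (by simp [modAx₂]) (fun _ => N.zero₁) (asg a b b)
  zero_add a := h (.two (.add .zero (.var 0)) (.var 0)) (by simp [modAx₂])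
    (fun _ => N.zero₁) (asg a a a)
  add_zero a := by
    have h1 := h (.two (.add (.var 0) (.var 1)) (.add (.var 1) (.var 0)))
      (by simp [modAx₂]) (fun _ => N.zero₁) (asg a N.zero₂ a)
    have h2 := h (.two (.add .zero (.var 0)) (.var 0)) (by simp [modAx₂])
      (fun _ => N.zero₁) (asg a a a)
    exact Eq.trans h1 h2
  neg_add_cancel a := h (.two (.add (.neg (.var 0)) (.var 0)) .zero)
    (by simp [modAx₂]) (fun _ => N.zero₁) (asg a a a)

/-- the module structure of sort 2 -/
@[instance_reducible]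
def mod₂ (N : Alg RA RB ar U V) (h : ∀ e ∈ modAx₂ RA RB ar, N.Holds e) :
    @Module RB V _ (grp₂ N h).toAddCommMonoid :=
  let _ := grp₂ N h
  let _ : SMul RB V := ⟨N.smul₂⟩
  Module.ofMinimalAxioms
    (fun r a b => h (.two (.smul r (.add (.var 0) (.var 1)))
      (.add (.smul r (.var 0)) (.smul r (.var 1)))) (by simp [modAx₂])
      (fun _ => N.zero₁) (asg a b b))
    (fun r s a => h (.two (.smul (r + s) (.var 0))
      (.add (.smul r (.var 0)) (.smul s (.var 0)))) (by simp [modAx₂])
      (fun _ => N.zero₁) (asg a a a))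
    (fun r s a => h (.two (.smul (r * s) (.var 0))
      (.smul r (.smul s (.var 0)))) (by simp [modAx₂]) (fun _ => N.zero₁) (asg a a a))
    (fun a => h (.two (.smul 1 (.var 0)) (.var 0)) (by simp [modAx₂])
      (fun _ => N.zero₁) (asg a a a))

theorem exists_modAlg (N : Alg RA RB ar U V) (h₁ : ∀ e ∈ modAx₁ RA RB ar, N.Holds e)
    (h₂ : ∀ e ∈ modAx₂ RA RB ar, N.Holds e) :
    ∃ (_ : AddCommGroup U) (_ : Module RA U) (_ : AddCommGroup V) (_ : Module RB V),
      N = modAlg RA RB ar N.app :=
  ⟨grp₁ N h₁, mod₁ N h₁, grp₂ N h₂, mod₂ N h₂, rfl⟩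

theorem modAlg_holds₁ [AddCommGroup U] [Module RA U] [AddCommGroup V] [Module RB V]
    (f : (i : ι) → (Fin (ar i) → U) → V) : ∀ e ∈ modAx₁ RA RB ar, (modAlg RA RB ar f).Holds e := by
  intro e he
  simp only [modAx₁, Set.mem_union, Set.mem_insert_iff, Set.mem_singleton_iff, Set.mem_range] at he
  rcases he with (rfl | rfl | rfl | rfl | rfl) | ⟨r, rfl⟩ | ⟨r, rfl⟩ | ⟨r, rfl⟩ <;>
    intro x <;> simp only [Alg.eval₁, modAlg]
  · exact add_assoc _ _ _
  · exact add_comm _ _
  · exact zero_add _
  · exact neg_add_cancel _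
  · exact one_smul _ _
  · exact smul_add _ _ _
  · exact add_smul _ _ _
  · exact mul_smul _ _ _

theorem modAlg_holds₂ [AddCommGroup U] [Module RA U] [AddCommGroup V] [Module RB V]
    (f : (i : ι) → (Fin (ar i) → U) → V) : ∀ e ∈ modAx₂ RA RB ar, (modAlg RA RB ar f).Holds e := by
  intro e he
  simp only [modAx₂, Set.mem_union, Set.mem_insert_iff, Set.mem_singleton_iff, Set.mem_range] at he
  rcases he with (rfl | rfl | rfl | rfl | rfl) | ⟨r, rfl⟩ | ⟨r, rfl⟩ | ⟨r, rfl⟩ <;>
    intro x y <;> simp only [Alg.eval₂, modAlg]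
  · exact add_assoc _ _ _
  · exact add_comm _ _
  · exact zero_add _
  · exact neg_add_cancel _
  · exact one_smul _ _
  · exact smul_add _ _ _
  · exact add_smul _ _ _
  · exact mul_smul _ _ _

/-- linear form as a term -/
def lin {k : ℕ} (t : Fin k → RA) : T1 RA :=
  ((List.finRange k).map (fun j => T1.smul (t j) (T1.var j))).foldr T1.add T1.zero

/-- a combination of application terms as a term -/
noncomputable def toTerm {k : ℕ} (c : P RA ar k →₀ RB) : T2 RA RB ar :=
  (c.support.toList.map (fun p => T2.smul (c p) (T2.app p.1 (fun a => lin (p.2 a))))).foldr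
    T2.add T2.zero

section

variable [AddCommGroup U] [Module RA U] [AddCommGroup V] [Module RB V]
    (f : (i : ι) → (Fin (ar i) → U) → V)

theorem eval₁_foldr (x : ℕ → U) (l : List (T1 RA)) :
    (modAlg RA RB ar f).eval₁ x (l.foldr T1.add T1.zero) =
      (l.map ((modAlg RA RB ar f).eval₁ x)).sum := by
  induction l with
  | nil => rfl
  | cons a l ih =>
    rw [List.map_cons, List.sum_cons, ← ih]; rfl

theorem eval₂_foldr (x : ℕ → U) (y : ℕ → V) (l : List (T2 RA RB ar)) :
    (modAlg RA RB ar f).eval₂ x y (l.foldr T2.add T2.zero) =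
      (l.map ((modAlg RA RB ar f).eval₂ x y)).sum := by
  induction l with
  | nil => rfl
  | cons a l ih =>
    rw [List.map_cons, List.sum_cons, ← ih]; rfl

theorem eval_lin {k : ℕ} (x : ℕ → U) (t : Fin k → RA) :
    (modAlg RA RB ar f).eval₁ x (lin t) = ∑ j : Fin k, t j • x j := by
  rw [lin, eval₁_foldr, List.map_map, Fin.sum_univ_def]
  rfl

theorem eval_toTerm {k : ℕ} (x : ℕ → U) (y : ℕ → V) (c : P RA ar k →₀ RB) :
    (modAlg RA RB ar f).eval₂ x y (toTerm c) =
      Finsupp.linearCombination RB (val f (fun j : Fin k => x j)) c := by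
  rw [toTerm, eval₂_foldr, List.map_map, Finsupp.linearCombination_apply, Finsupp.sum,
    ← Finset.sum_map_toList]
  congr 1
  apply List.map_congr_left
  intro p _
  change c p • f p.1 (fun a => (modAlg RA RB ar f).eval₁ x (lin (p.2 a))) = _
  simp only [eval_lin]
  rfl

end

theorem transfer {A : Type u₆} {B : Type u₇} [AddCommGroup A] [Module RA A] [AddCommGroup B]
    [Module RB B] (f : (i : ι) → (Fin (ar i) → A) → B)
    [AddCommGroup U] [Module RA U] [AddCommGroup V] [Module RB V]
    (g : (i : ι) → (Fin (ar i) → U) → V)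
    (h1 : ∀ r : RA, (∀ a : A, r • a = 0) → ∀ u : U, r • u = 0)
    (h2 : ∀ r : RB, (∀ b : B, r • b = 0) → ∀ v : V, r • v = 0)
    (h3 : ∀ k, Rel (RA := RA) (RB := RB) f k ≤ Rel g k) (e : Ident RA RB ar)
    (he : (modAlg RA RB ar f).Holds e) : (modAlg RA RB ar g).Holds e := by
  classical
  cases e with
  | one s t =>
    intro x
    set k := max s.bd t.bd with hk
    let x' : ℕ → U := fun n => if n < k then x n else 0
    have hx' : ∀ n, k ≤ n → x' n = 0 := fun n hn => by simp [x', not_lt.2 hn]
    have e1 : (modAlg RA RB ar g).eval₁ x s = (modAlg RA RB ar g).eval₁ x' s :=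
      eval₁_congr _ s (fun n hn => by
        have hnk : n < k := lt_of_lt_of_le hn (le_max_left _ _)
        simp [x', hnk])
    have e2 : (modAlg RA RB ar g).eval₁ x t = (modAlg RA RB ar g).eval₁ x' t :=
      eval₁_congr _ t (fun n hn => by
        have hnk : n < k := lt_of_lt_of_le hn (le_max_right _ _)
        simp [x', hnk])
    rw [e1, e2, eval_nf₁ g x' k hx', eval_nf₁ g x' k hx', ← sub_eq_zero, ← Finset.sum_sub_distrib]
    apply Finset.sum_eq_zero
    intro j _
    rw [← sub_smul]
    apply h1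
    intro a
    let z : ℕ → A := fun n => if n = j then a else 0
    have hz : ∀ n, k ≤ n → z n = 0 := fun n hn => by
      have : n ≠ j := by have := j.2; omega
      simp [z, this]
    have h := he z
    rw [eval_nf₁ f z k hz, eval_nf₁ f z k hz] at h
    have hs : ∀ c : Fin k → RA, ∑ i : Fin k, c i • z i = c j • a := by
      intro c
      rw [Finset.sum_eq_single j]
      · simp [z]
      · intro i _ hij
        have : (i : ℕ) ≠ j := fun hc => hij (Fin.ext hc)
        simp [z, this]
      · intro hc; exact absurd (Finset.mem_univ j) hc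
    rw [hs, hs] at h
    rw [sub_smul, h, sub_self]
  | two s t =>
    intro x y
    set k := max s.bd t.bd with hk
    let x' : ℕ → U := fun n => if n < k then x n else 0
    have hx' : ∀ n, k ≤ n → x' n = 0 := fun n hn => by simp [x', not_lt.2 hn]
    have e1 : (modAlg RA RB ar g).eval₂ x y s = (modAlg RA RB ar g).eval₂ x' y s :=
      eval₂_congr _ y s (fun n hn => by
        have hnk : n < k := lt_of_lt_of_le hn (le_max_left _ _)
        simp [x', hnk])
    have e2 : (modAlg RA RB ar g).eval₂ x y t = (modAlg RA RB ar g).eval₂ x' y t :=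
      eval₂_congr _ y t (fun n hn => by
        have hnk : n < k := lt_of_lt_of_le hn (le_max_right _ _)
        simp [x', hnk])
    rw [e1, e2, eval_nf₂ g x' y k hx', eval_nf₂ g x' y k hx']
    have base : ∀ (z : Fin k → A) (w : ℕ → B),
        Finsupp.linearCombination RB w (nfy s) +
          Finsupp.linearCombination RB (val f z) (nf₂ k s) =
        Finsupp.linearCombination RB w (nfy t) +
          Finsupp.linearCombination RB (val f z) (nf₂ k t) := by
      intro z w
      let z' : ℕ → A := fun n => if h : n < k then z ⟨n, h⟩ else 0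
      have hz' : ∀ n, k ≤ n → z' n = 0 := fun n hn => by simp [z', not_lt.2 hn]
      have h := he z' w
      rw [eval_nf₂ f z' w k hz', eval_nf₂ f z' w k hz'] at h
      have hzz : (fun j : Fin k => z' j) = z := by
        funext j; simp [z', j.2]
      rw [hzz] at h
      exact h
    have hrel : nf₂ k s - nf₂ k t ∈ Rel f k := by
      rw [mem_Rel]
      intro z
      have h := base z (fun _ => 0)
      have h0 : ∀ c : ℕ →₀ RB, Finsupp.linearCombination RB (fun _ => (0 : B)) c = 0 := by
        intro c; simp [Finsupp.linearCombination_apply, Finsupp.sum]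
      rw [h0, h0, zero_add, zero_add] at h
      rw [map_sub, h, sub_self]
    have hrel' := (mem_Rel g).1 (h3 k hrel) (fun j : Fin k => x' j)
    rw [map_sub, sub_eq_zero] at hrel'
    rw [hrel']
    congr 1
    have hy : ∀ w : ℕ → B, Finsupp.linearCombination RB w (nfy s) =
        Finsupp.linearCombination RB w (nfy t) := by
      intro w
      have h := base (fun _ => 0) w
      have hr := (mem_Rel f).1 hrel (fun _ => 0)
      rw [map_sub, sub_eq_zero] at hr
      rw [hr] at h
      exact add_right_cancel h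
    have hyn : ∀ n, ∀ v : V, (nfy s n - nfy t n) • v = 0 := by
      intro n
      apply h2
      intro b
      have h := hy (fun m => if m = n then b else 0)
      have hs : ∀ c : ℕ →₀ RB, Finsupp.linearCombination RB (fun m => if m = n then b else 0) c =
          c n • b := by
        intro c
        rw [Finsupp.linearCombination_apply, Finsupp.sum]
        by_cases hn : n ∈ c.support
        · rw [Finset.sum_eq_single n]
          · simp
          · intro m _ hm; simp [hm]
          · intro hc; exact absurd hn hc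
        · rw [Finsupp.notMem_support_iff.1 hn, zero_smul]
          apply Finset.sum_eq_zero
          intro m hm
          have : m ≠ n := fun hc => hn (hc ▸ hm)
          simp [this]
      rw [hs, hs] at h
      rw [sub_smul, h, sub_self]
    rw [← sub_eq_zero, ← map_sub, Finsupp.linearCombination_apply, Finsupp.sum]
    apply Finset.sum_eq_zero
    intro n _
    exact hyn n (y n)

theorem main [Finite RA] [Finite RB] [Finite ι] {A : Type u₆} {B : Type u₇} [AddCommGroup A]
    [Module RA A] [AddCommGroup B] [Module RB B] (f : (i : ι) → (Fin (ar i) → A) → B) :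
    (modAlg RA RB ar f).HasFiniteBasis := by
  obtain ⟨G, hGfin, hG1, hG2⟩ := fg (RA := RA) (RB := RB) (ar := ar) (Rel f)
  set E : Set (Ident RA RB ar) := modAx₁ RA RB ar ∪ (modAx₂ RA RB ar ∪
    ((fun r : RA => Ident.one (.smul r (.var 0)) .zero) '' {r | ∀ a : A, r • a = 0} ∪
    ((fun r : RB => Ident.two (.smul r (.var 0)) .zero) '' {r | ∀ b : B, r • b = 0} ∪
    (fun g : (Σ k, P RA ar k →₀ RB) => Ident.two (toTerm g.2) .zero) '' G))) with hE
  refine ⟨E, ?_, ?_, ?_⟩
  · exact (modAx₁_finite RA RB ar).union ((modAx₂_finite RA RB ar).union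
      (((Set.toFinite _).image _).union (((Set.toFinite _).image _).union (hGfin.image _))))
  · rintro e (he | he | ⟨r, hr, rfl⟩ | ⟨r, hr, rfl⟩ | ⟨g, hg, rfl⟩)
    · exact modAlg_holds₁ f e he
    · exact modAlg_holds₂ f e he
    · intro x; exact hr (x 0)
    · intro x y; exact hr (y 0)
    · intro x y
      rw [eval_toTerm]
      exact (mem_Rel f).1 (hG1 g hg) _
  · intro e he
    apply derives_of_QAlg_holds
    have hQ := fun e (he : e ∈ E) => QAlg_holds E he
    generalize QAlg E = Q at hQ
    obtain ⟨_, _, _, _, hN⟩ := exists_modAlg Q (fun e he => hQ e (Or.inl he))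
      (fun e he => hQ e (Or.inr (Or.inl he)))
    rw [hN] at hQ ⊢
    refine transfer f Q.app ?_ ?_ ?_ e he
    · intro r hr u
      exact hQ _ (Or.inr (Or.inr (Or.inl ⟨r, hr, rfl⟩))) (fun _ => u)
    · intro r hr v
      exact hQ _ (Or.inr (Or.inr (Or.inr (Or.inl ⟨r, hr, rfl⟩)))) (fun _ => 0) (fun _ => v)
    · have : (Rel (RA := RA) (RB := RB) f) ≤ Rel Q.app := by
        refine le_trans hG2 (fun k c hc => hc _ (Rel_closed _) ?_)
        intro g hg
        rw [mem_Rel]
        intro x
        have h := hQ _ (Or.inr (Or.inr (Or.inr (Or.inr ⟨g, hg, rfl⟩))))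
          (fun n => if h : n < g.1 then x ⟨n, h⟩ else 0) (fun _ => 0)
        rw [eval_toTerm] at h
        have hx : (fun j : Fin g.1 => (if h : (j : ℕ) < g.1 then x ⟨j, h⟩ else 0)) = x := by
          funext j; simp [j.2]
        rw [hx] at h
        exact h
      exact this

end Ax

end Pool.Agent.Q16.Basis
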